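import Mathlib

set_option autoImplicit false

namespace Pool.Agent.Results.MP_7875f2_co.SatEvenCycle

open SimpleGraph

/-- `H` is an `F`-saturated spanning subgraph of `G` -/
def Saturated {V W : Type} (G : SimpleGraph V) (F : SimpleGraph W) (H : SimpleGraph V) : Prop :=
  H ≤ G ∧ ¬ F ⊑ H ∧ ∀ u v, G.Adj u v → ¬ H.Adj u v → F ⊑ H ⊔ edge u v

/-- the saturation number of `F` relative to `G` -/
noncomputable def sat {V W : Type} (G : SimpleGraph V) (F : SimpleGraph W) : ℕ :=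
  sInf {m | ∃ H : SimpleGraph V, Saturated G F H ∧ H.edgeSet.ncard = m}

def el : List (Fin 6 × Fin 6) :=
  [(0, 3), (0, 4), (0, 5), (1, 0), (1, 2), (1, 5), (2, 3), (3, 0), (3, 1), (3, 2), (3, 3), (3, 4), (3, 5), (4, 4), (5, 1), (5, 5)]

def ad : Fin 6 ⊕ Fin 6 → Fin 6 ⊕ Fin 6 → Bool
  | .inl a, .inr b => decide ((a, b) ∈ el)
  | .inr b, .inl a => decide ((a, b) ∈ el)
  | _, _ => false

def H0 : SimpleGraph (Fin 6 ⊕ Fin 6) where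
  Adj u v := ad u v = true
  symm := ⟨by decide⟩
  loopless := ⟨by decide⟩

instance : DecidableRel H0.Adj := fun u v => inferInstanceAs (Decidable (ad u v = true))

def cert : Fin 6 → Fin 6 → Fin 8 → Fin 6 :=
  ![![![0, 3, 3, 1, 5, 5, 1, 0], ![0, 3, 3, 0, 1, 5, 5, 1], ![0, 3, 3, 1, 5, 5, 1, 2], ![0, 0, 0, 0, 0, 0, 0, 0], ![0, 0, 0, 0, 0, 0, 0, 0], ![0, 0, 0, 0, 0, 0, 0, 0]],
   ![![0, 0, 0, 0, 0, 0, 0, 0], ![1, 0, 3, 3, 0, 5, 5, 1], ![0, 0, 0, 0, 0, 0, 0, 0], ![1, 0, 3, 1, 5, 5, 0, 3], ![1, 0, 3, 1, 5, 5, 0, 4], ![0, 0, 0, 0, 0, 0, 0, 0]],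
   ![![2, 3, 0, 4, 3, 2, 1, 0], ![2, 3, 0, 4, 3, 5, 5, 1], ![2, 3, 0, 4, 3, 0, 1, 2], ![0, 0, 0, 0, 0, 0, 0, 0], ![2, 3, 0, 5, 1, 0, 3, 4], ![2, 3, 0, 4, 3, 0, 1, 5]],
   ![![0, 0, 0, 0, 0, 0, 0, 0], ![0, 0, 0, 0, 0, 0, 0, 0], ![0, 0, 0, 0, 0, 0, 0, 0], ![0, 0, 0, 0, 0, 0, 0, 0], ![0, 0, 0, 0, 0, 0, 0, 0], ![0, 0, 0, 0, 0, 0, 0, 0]],
   ![![4, 4, 0, 3, 3, 2, 1, 0], ![4, 4, 0, 3, 3, 5, 5, 1], ![4, 4, 0, 3, 3, 0, 1, 2], ![4, 4, 0, 5, 1, 0, 3, 3], ![0, 0, 0, 0, 0, 0, 0, 0], ![4, 4, 0, 3, 3, 0, 1, 5]],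
   ![![5, 1, 3, 3, 0, 5, 1, 0], ![0, 0, 0, 0, 0, 0, 0, 0], ![5, 1, 3, 3, 0, 5, 1, 2], ![5, 1, 3, 0, 1, 5, 0, 3], ![5, 1, 3, 0, 1, 5, 0, 4], ![0, 0, 0, 0, 0, 0, 0, 0]]]

def cyc (a b : Fin 6) (i : Fin 8) : Fin 6 ⊕ Fin 6 :=
  if i.val % 2 = 0 then .inl (cert a b i) else .inr (cert a b i)

lemma cert_ok : ∀ a b : Fin 6, ¬ H0.Adj (.inl a) (.inr b) → Function.Injective (cyc a b) ∧
    ∀ i j, (cycleGraph 8).Adj i j → H0.Adj (cyc a b i) (cyc a b j) ∨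
      (cyc a b i = .inl a ∧ cyc a b j = .inr b) ∨ (cyc a b i = .inr b ∧ cyc a b j = .inl a) := by
  decide +kernel

set_option synthInstance.maxSize 4000 in
lemma nocyc : ∀ a b, H0.Adj a b → ∀ c, H0.Adj b c → c ≠ a → ∀ d, H0.Adj c d → d ≠ b →
    ∀ e, H0.Adj d e → e ≠ c → e ≠ a → ∀ f, H0.Adj e f → f ≠ d → f ≠ b →
    ∀ g, H0.Adj f g → g ≠ e → g ≠ c → g ≠ a → ∀ h, H0.Adj g h → h ≠ f → h ≠ d → h ≠ b →
    ¬ H0.Adj h a := by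
  decide +kernel

lemma add (a b : Fin 6) (h : ¬ H0.Adj (.inl a) (.inr b)) :
    cycleGraph 8 ⊑ H0 ⊔ edge (.inl a) (.inr b) := by
  obtain ⟨h1, h2⟩ := cert_ok a b h
  refine ⟨⟨⟨cyc a b, fun {i j} hij => ?_⟩, h1⟩⟩
  rw [sup_adj, edge_adj]
  rcases h2 i j hij with h | h
  · exact Or.inl h
  · exact Or.inr ⟨h, fun e => hij.ne (h1 e)⟩

lemma sat0 : Saturated (completeBipartiteGraph (Fin 6) (Fin 6)) (cycleGraph 8) H0 := by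
  refine ⟨?_, ?_, ?_⟩
  · intro u v h
    cases u <;> cases v <;> simp_all [H0, ad]
  · rintro ⟨φ⟩
    have A : ∀ i j, (cycleGraph 8).Adj i j → H0.Adj (φ i) (φ j) := fun i j h => φ.toHom.map_adj h
    have N : ∀ i j, i ≠ j → φ i ≠ φ j := fun i j h e => h (φ.injective e)
    exact nocyc (φ 0) (φ 1) (A _ _ (by decide)) (φ 2) (A _ _ (by decide)) (N _ _ (by decide))
      (φ 3) (A _ _ (by decide)) (N _ _ (by decide))
      (φ 4) (A _ _ (by decide)) (N _ _ (by decide)) (N _ _ (by decide))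
      (φ 5) (A _ _ (by decide)) (N _ _ (by decide)) (N _ _ (by decide))
      (φ 6) (A _ _ (by decide)) (N _ _ (by decide)) (N _ _ (by decide)) (N _ _ (by decide))
      (φ 7) (A _ _ (by decide)) (N _ _ (by decide)) (N _ _ (by decide)) (N _ _ (by decide))
      (A _ _ (by decide))
  · intro u v h hn
    cases u <;> cases v
    · simp at h
    · exact add _ _ hn
    · rw [edge_comm]
      exact add _ _ (fun e => hn e.symm)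
    · simp at h

theorem result : ¬ ∀ l n₁ n₂ : ℕ, 4 ≤ l → l + 2 ≤ n₁ → l + 2 ≤ n₂ →
    (sat (completeBipartiteGraph (Fin n₁) (Fin n₂)) (cycleGraph (2 * l)) : ℤ) =
      n₁ + n₂ + l ^ 2 - 3 * l + 1 := by
  intro h
  have h1 := h 4 6 6 le_rfl le_rfl le_rfl
  have h2 : sat (completeBipartiteGraph (Fin 6) (Fin 6)) (cycleGraph 8) ≤ 16 := by
    apply Nat.sInf_le
    refine ⟨H0, sat0, ?_⟩
    rw [← coe_edgeFinset, Set.ncard_coe_finset]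
    decide +kernel
  have h3 : (sat (completeBipartiteGraph (Fin 6) (Fin 6)) (cycleGraph 8) : ℤ) = 17 := h1
  omega

end Pool.Agent.Results.MP_7875f2_co.SatEvenCycle
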